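import Mathlib

/-!
# Jets: definitions used by the arithmetic modules

`AnJ` : families of power series which are Taylor series of p-adic analytic functions,
`Bdd` : local bounds for the coefficients of power series over a number field.
-/

namespace Pool.Agent.H79.HN

open scoped BigOperators

/-- the point `(p n, p X)` with coordinates in `Z_p[X]` -/
noncomputable def jpt {p : ℕ} [Fact p.Prime] {r k : ℕ} (n : Fin r → ℤ_[p]) :
    Fin r ⊕ Fin k → MvPolynomial (Fin k) ℤ_[p] :=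
  Sum.elim (fun i => MvPolynomial.C ((p : ℤ_[p]) * n i))
    (fun a => MvPolynomial.C (p : ℤ_[p]) * MvPolynomial.X a)

/-- `c n` (for `n` in `Z_p^r`) is the Taylor series at `(n, 0)` of a function of `(n, t)` which is a
power series in `(p n, p t)` with coefficients in `Z_p` and whose derivatives in the directions of
`Kr` vanish (`Q` is the power series modulo `p^D`). -/
def AnJ {p : ℕ} [Fact p.Prime] {r k : ℕ} (Kr : Set (Fin r ⊕ Fin k → ℤ_[p]))
    (c : (Fin r → ℤ_[p]) → MvPowerSeries (Fin k) ℤ_[p]) : Prop :=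
  ∀ D : ℕ, ∃ Q : MvPolynomial (Fin r ⊕ Fin k) ℤ_[p],
    (∀ z ∈ Kr, ∑ i, MvPolynomial.C (z i) * MvPolynomial.pderiv i Q = 0) ∧
    ∀ (n : Fin r → ℤ_[p]) (τ : Fin k →₀ ℕ), (p : ℤ_[p]) ^ D ∣ MvPowerSeries.coeff τ (c n) -
      MvPolynomial.coeff τ (MvPolynomial.aeval (jpt n) Q)

/-- the point `P(n, X)` with coordinates in `Z_p[X]`, for a linear map `P` -/
noncomputable def ppt {p : ℕ} [Fact p.Prime] {r k δ : ℕ}
    (P : (Fin r ⊕ Fin k → ℤ_[p]) →ₗ[ℤ_[p]] (Fin δ → ℤ_[p])) (n : Fin r → ℤ_[p]) :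
    Fin δ → MvPolynomial (Fin k) ℤ_[p] :=
  fun i => MvPolynomial.C (P (Sum.elim n 0) i) +
    ∑ a, MvPolynomial.C (P (Pi.single (Sum.inr a) 1) i) * MvPolynomial.X a

/-- `c n` (for `n` in `Z_p^r`) is the Taylor series at `(n, 0)` of a function of `(n, t)` which is a
power series in `p P(n, t)` with coefficients in `Z_p` (`Q` is this series modulo `p^D`). -/
def AnP {p : ℕ} [Fact p.Prime] {r k δ : ℕ}
    (P : (Fin r ⊕ Fin k → ℤ_[p]) →ₗ[ℤ_[p]] (Fin δ → ℤ_[p]))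
    (c : (Fin r → ℤ_[p]) → MvPowerSeries (Fin k) ℤ_[p]) : Prop :=
  ∀ D : ℕ, ∃ Q : MvPolynomial (Fin δ) ℤ_[p], ∀ (n : Fin r → ℤ_[p]) (τ : Fin k →₀ ℕ),
    (p : ℤ_[p]) ^ D ∣ MvPowerSeries.coeff τ (c n) -
      MvPolynomial.coeff τ (MvPolynomial.aeval (fun i => MvPolynomial.C (p : ℤ_[p]) * ppt P n i) Q)

open Height Height.AdmissibleAbsValues

/-- `τ!` -/
def fac {κ : ℕ} (τ : Fin κ →₀ ℕ) : ℕ := ∏ a, (τ a).factorial

/-- the order `|τ|` -/
def ord {κ : ℕ} (τ : Fin κ →₀ ℕ) : ℕ := ∑ a, τ a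

/-- LOCAL BOUNDS for the coefficients of the power series `φ j`, of total logarithmic size `≤ h`. -/
def Bdd {K : Type} [Field K] [NumberField K] {κ k : ℕ}
    (φ : Fin (k + 1) → MvPowerSeries (Fin κ) K) (h : ℝ) : Prop :=
  ∃ (ba : AbsoluteValue K ℝ → ℝ) (bn : nonarchAbsVal (K := K) → ℝ),
    (∀ u ∈ archAbsVal (K := K), 1 ≤ ba u ∧
      ∀ j τ, u (MvPowerSeries.coeff τ (φ j)) ≤ ba u ^ (ord τ + 1)) ∧
    (∀ u : nonarchAbsVal (K := K), 1 ≤ bn u ∧
      ∀ j τ, u.val ((fac τ : K) * MvPowerSeries.coeff τ (φ j)) ≤ bn u ^ (ord τ + 1)) ∧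
    bn.HasFiniteMulSupport ∧
    ((archAbsVal (K := K)).map fun u => Real.log (ba u)).sum +
      ∑ᶠ u : nonarchAbsVal (K := K), Real.log (bn u) ≤ h

end Pool.Agent.H79.HN
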