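import Mathlib

/-!
# Fujiki's relation and the mixed numbers which vanish (module COI)

`pairSum` is the polarised form of `q(v)^n`.  If `v i = l` for `i` in a set `SL`, and all `v i`
outside a set `SA` with fewer elements are orthogonal to `l`, then `pairSum` vanishes, because in
every pairing some `l` is paired with a vector orthogonal to `l`.  This applies to `l^k sg^(n-k+1) sgb^(n-k+1) a^(k-2)`.
-/

namespace Pool.Agent.H79.HN

open scoped BigOperators

/-- the polarised form of `q(v)^n` (up to the factor `(2n)!`): the sum over all permutations of the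
products of the values of `q` on consecutive pairs. -/
def pairSum {V : Type*} {n : ℕ} (qC : V → V → ℂ) (v : Fin (2 * n) → V) : ℂ :=
  ∑ σ : Equiv.Perm (Fin (2 * n)), ∏ i : Fin n,
    qC (v (σ ⟨2 * i, by have := i.2; omega⟩)) (v (σ ⟨2 * i + 1, by have := i.2; omega⟩))

/-- the vector `l^k sg^(n-k+1) sgb^(n-k+1) a^(k-2)` -/
def mix {V : Type*} (n k : ℕ) (l a sg sgb : V) (i : Fin (2 * n)) : V :=
  if i.1 < k then l else if i.1 < n + 1 then sg else if i.1 < 2 * n + 2 - k then sgb else a

/-- the partner of a position in the standard pairing -/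
def partner {n : ℕ} (i : Fin (2 * n)) : Fin (2 * n) :=
  if i.1 % 2 = 0 then ⟨i.1 / 2 * 2 + 1, by have := i.2; omega⟩ else ⟨i.1 / 2 * 2, by have := i.2; omega⟩

theorem partner_inj {n : ℕ} : Function.Injective (partner (n := n)) := by
  intro i j h
  unfold partner at h
  ext
  split_ifs at h with h1 h2 h2 <;> simp only [Fin.mk.injEq] at h <;> omega

theorem pairing_zero {V : Type*} {n : ℕ} (qC : V → V → ℂ) (l : V) (v : Fin (2 * n) → V)
    (SL SA : Finset (Fin (2 * n))) (hSL : ∀ i ∈ SL, v i = l)
    (hSA : ∀ i, i ∉ SA → qC l (v i) = 0 ∧ qC (v i) l = 0) (hcard : SA.card < SL.card) :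
    pairSum qC v = 0 := by
  classical
  unfold pairSum
  refine Finset.sum_eq_zero fun σ _ => ?_
  by_contra hne
  have hne' : ∀ i : Fin n,
      qC (v (σ ⟨2 * i, by have := i.2; omega⟩)) (v (σ ⟨2 * i + 1, by have := i.2; omega⟩)) ≠ 0 :=
    fun i h0 => hne (Finset.prod_eq_zero (Finset.mem_univ i) h0)
  -- the partner of a position of `l` is in `SA`
  have hmap : ∀ i ∈ SL, σ (partner (σ.symm i)) ∈ SA := by
    intro i hi
    by_contra hcon
    obtain ⟨h1, h2⟩ := hSA _ hcon
    have hl := hSL i hi
    obtain ⟨j, hj⟩ : ∃ j, j = σ.symm i := ⟨_, rfl⟩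
    have hij : i = σ j := by rw [hj, Equiv.apply_symm_apply]
    rw [← hj] at h1 h2
    have hj2 := j.2
    by_cases hp : j.1 % 2 = 0
    · have h3 := hne' ⟨j.1 / 2, by omega⟩
      have e1 : (⟨2 * (j.1 / 2), by omega⟩ : Fin (2 * n)) = j := by ext; simp only; omega
      have e2 : (⟨2 * (j.1 / 2) + 1, by omega⟩ : Fin (2 * n)) = partner j := by
        unfold partner; rw [if_pos hp]; ext; simp only; omega
      simp only at h3
      rw [e1, e2, ← hij, hl] at h3
      exact h3 h1
    · have h3 := hne' ⟨j.1 / 2, by omega⟩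
      have e1 : (⟨2 * (j.1 / 2), by omega⟩ : Fin (2 * n)) = partner j := by
        unfold partner; rw [if_neg hp]; ext; simp only; omega
      have e2 : (⟨2 * (j.1 / 2) + 1, by omega⟩ : Fin (2 * n)) = j := by ext; simp only; omega
      simp only at h3
      rw [e1, e2, ← hij, hl] at h3
      exact h3 h2
  have hinj : Set.InjOn (fun i => σ (partner (σ.symm i))) (SL : Set (Fin (2 * n))) := by
    intro i _ j _ h
    exact σ.symm.injective (partner_inj (σ.injective h))
  have := Finset.card_le_card_of_injOn _ hmap hinj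
  omega

/-- **The mixed number vanishes.** -/
theorem mix_zero {V : Type*} {n k : ℕ} (hk : 2 ≤ k) (hkn : k ≤ n) (qC : V → V → ℂ)
    (l a sg sgb : V) (h0 : qC l l = 0) (h1 : qC l sg = 0) (h1' : qC sg l = 0) (h2 : qC l sgb = 0)
    (h2' : qC sgb l = 0) : pairSum qC (mix n k l a sg sgb) = 0 := by
  classical
  refine pairing_zero qC l _ (Finset.univ.filter fun i => i.1 < k)
    (Finset.univ.filter fun i => 2 * n + 2 - k ≤ i.1) ?_ ?_ ?_
  · intro i hi
    rw [Finset.mem_filter] at hi
    unfold mix
    rw [if_pos hi.2]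
  · intro i hi
    rw [Finset.mem_filter] at hi
    push Not at hi
    have h3 := hi (Finset.mem_univ i)
    unfold mix
    split_ifs
    · exact ⟨h0, h0⟩
    · exact ⟨h1, h1'⟩
    · exact ⟨h2, h2'⟩
  · have e1 : (Finset.univ.filter fun i : Fin (2 * n) => i.1 < k).card = k := by
      rw [Fin.card_filter_val_lt]
      omega
    have e2 : (Finset.univ.filter fun i : Fin (2 * n) => 2 * n + 2 - k ≤ i.1).card ≤ k - 2 := by
      have h3 : (Finset.univ.filter fun i : Fin (2 * n) => 2 * n + 2 - k ≤ i.1).card ≤
          (Finset.Ico (2 * n + 2 - k) (2 * n)).card := by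
        refine Finset.card_le_card_of_injOn (fun i => i.1) ?_ ?_
        · intro i hi
          rw [Finset.mem_coe, Finset.mem_filter] at hi
          rw [Finset.mem_coe, Finset.mem_Ico]
          exact ⟨hi.2, i.2⟩
        · intro i _ j _ h
          exact Fin.ext h
      rw [Nat.card_Ico] at h3
      omega
    omega

end Pool.Agent.H79.HN
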